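import Pool.Agent.Helper66.RT.All

/-!
# RV project: isolation from all zeros of zeta, from a box and a density bound

The zeros of `IsoSet T b h` have no other zero in the box of depth `h/log T` within `b`. A deeper level spoils at most two of them,
and it carries two zeros. So all but the number of deeper zeros are isolated from all zeros.
-/

set_option autoImplicit false

open Finset Filter Topology MeasureTheory

namespace Pool.Agent.Helper49.RV

open Pool.Agent.Helper57.LH Pool.Agent.Helper57.PC Pool.Agent.Helper57.Zeta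
open Pool.Agent.Helper6.HM (lev one_le_mult Sc mem_Sc lev_inj st_mem)
open Pool.Agent.Helper49.RT
open Pool.Agent.Helper66.RT (AllSet lev_mirror)

/-- the zeros up to `T` of depth more than `h/log T` -/
noncomputable def Deep (T h : ℝ) : Finset ℂ := (Zf T).filter (fun σ => h < |σ.re - 1 / 2| * Real.log T)

/-- three reals in an interval of length `2 b` are not pairwise more than `b` apart -/
lemma three_pts {x y z s b : ℝ} (hx : |x - s| ≤ b) (hy : |y - s| ≤ b) (hz : |z - s| ≤ b)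
    (hxy : b < |x - y|) (hxz : b < |x - z|) (hyz : b < |y - z|) : False := by
  rw [abs_le] at hx hy hz
  rcases lt_abs.1 hxy with h1 | h1 <;> rcases lt_abs.1 hxz with h2 | h2 <;> rcases lt_abs.1 hyz with h3 | h3 <;> linarith

/-- **a deeper level spoils at most two isolated zeros** -/
theorem all_count2 {T b h : ℝ} (hh0 : 0 ≤ h) (hb : b ≤ 1 / 2) (hlog : 4 ≤ Real.log T) :
    ((IsoSet T b h).ncard : ℝ) - (Deep T h).card - (Ed T).card ≤ ((AllSet T b).ncard : ℝ) := by
  classical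
  obtain ⟨I, hI⟩ : ∃ I : Finset ℂ, I = (Zf T).filter (fun ρ => ρ ∈ IsoSet T b h) := ⟨_, rfl⟩
  have hIs : (I : Set ℂ) = IsoSet T b h := by
    ext ρ
    rw [hI]
    simp only [coe_filter, Set.mem_ofPred_eq]
    exact ⟨fun h => h.2, fun h => ⟨IsoSet_sub _ _ _ h, h⟩⟩
  obtain ⟨J, hJ⟩ : ∃ J : Finset ℂ, J = (Zf T).filter (fun ρ => ρ ∈ AllSet T b) := ⟨_, rfl⟩
  have hJs : (J : Set ℂ) = AllSet T b := by
    ext ρ
    rw [hJ]
    simp only [coe_filter, Set.mem_ofPred_eq]
    exact ⟨fun h => h.2, fun h => ⟨h.1, h⟩⟩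
  rw [← hIs, ← hJs, Set.ncard_coe_finset, Set.ncard_coe_finset]
  obtain ⟨P, hP⟩ : ∃ P : Finset ℂ, P = (I \ J) \ Ed T := ⟨_, rfl⟩
  obtain ⟨R, hR⟩ : ∃ R : Finset ℂ, R = (Deep T h).filter (fun σ => 1 / 2 < σ.re) := ⟨_, rfl⟩
  obtain ⟨L, hL⟩ : ∃ L : Finset ℂ, L = (Deep T h).filter (fun σ => σ.re < 1 / 2) := ⟨_, rfl⟩
  have hmI : ∀ ρ, ρ ∈ I ↔ ρ ∈ IsoSet T b h := fun ρ => by rw [← hIs]; exact Finset.mem_coe.symm
  have hmJ : ∀ ρ, ρ ∈ J ↔ ρ ∈ AllSet T b := fun ρ => by rw [← hJs]; exact Finset.mem_coe.symm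
  have hmD : ∀ σ, σ ∈ Deep T h ↔ σ ∈ Zf T ∧ h < |σ.re - 1 / 2| * Real.log T := fun σ => by
    unfold Deep
    rw [mem_filter]
  have hlog0 : 0 < Real.log T := by linarith
  have hmir : ∀ σ, σ ∈ Deep T h → 1 - starRingEnd ℂ σ ∈ Deep T h := by
    intro σ hσ
    rw [hmD] at hσ ⊢
    refine ⟨(st_mem hσ.1).1, ?_⟩
    have e1 : (1 - starRingEnd ℂ σ).re - 1 / 2 = -(σ.re - 1 / 2) := by
      simp only [Complex.sub_re, Complex.one_re, Complex.conj_re]
      ring
    rw [e1, abs_neg]
    exact hσ.2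
  -- the close deep zero
  have key : ∀ ρ ∈ P, ∃ σ ∈ R, |lev T ρ - lev T σ| ≤ b := by
    intro ρ hρ
    rw [hP, Finset.mem_sdiff, Finset.mem_sdiff] at hρ
    obtain ⟨⟨h1, h2⟩, h3⟩ := hρ
    rw [hmI] at h1
    rw [hmJ] at h2
    obtain ⟨h4, h5, h6, h7⟩ := h1
    have h8 : ∃ σ : ℂ, IsNontrivialZero σ ∧ σ ≠ ρ ∧ |lev T ρ - lev T σ| ≤ b := by
      by_contra hno
      apply h2
      refine ⟨h4, h5, h6, fun σ h9 h10 => ?_⟩
      by_contra h11
      push Not at h11
      exact hno ⟨σ, h9, h10, h11⟩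
    obtain ⟨σ, h9, h10, h11⟩ := h8
    have h12 : h < |σ.re - 1 / 2| * Real.log T := by
      by_contra h
      push Not at h
      have := h7 σ h9 h10 h
      linarith
    have h12' : σ.re ≠ 1 / 2 := by
      intro h'
      rw [h', sub_self, abs_zero, zero_mul] at h12
      linarith
    have h13 : 1 < ρ.im ∧ ρ.im ≤ T - 1 := by
      by_contra h
      apply h3
      unfold Ed
      rw [mem_filter]
      exact ⟨h4, h⟩
    have h14 : σ ∈ Zf T := in_range (by linarith) hb h13 h9 h11 hlog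
    have h15 : σ ∈ Deep T h := (hmD σ).2 ⟨h14, h12⟩
    rcases lt_or_gt_of_ne h12' with h16 | h16
    · refine ⟨1 - starRingEnd ℂ σ, ?_, ?_⟩
      · rw [hR, mem_filter]
        refine ⟨hmir σ h15, ?_⟩
        simp only [Complex.sub_re, Complex.one_re, Complex.conj_re]
        linarith
      · rw [lev_mirror]
        exact h11
    · refine ⟨σ, ?_, h11⟩
      rw [hR, mem_filter]
      exact ⟨h15, h16⟩
  choose! f hf1 hf2 using key
  have hsep : ∀ ρ ∈ P, ∀ ρ' ∈ P, ρ ≠ ρ' → b < |lev T ρ - lev T ρ'| := by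
    intro ρ hρ ρ' hρ' hne
    rw [hP, Finset.mem_sdiff, Finset.mem_sdiff] at hρ hρ'
    obtain ⟨-, -, -, h6⟩ := (hmI ρ).1 hρ.1.1
    obtain ⟨h7, h8, -, -⟩ := (hmI ρ').1 hρ'.1.1
    exact h6 ρ' (mem_Zf.1 h7).1 (Ne.symm hne) (by rw [h8]; simpa using hh0)
  have hfib : ∀ σ ∈ R, (P.filter (fun ρ => f ρ = σ)).card ≤ 2 := by
    intro σ _
    by_contra hlt
    push Not at hlt
    obtain ⟨x, y, z, hx, hy, hz, hxy, hxz, hyz⟩ := Finset.two_lt_card_iff.1 hlt
    rw [mem_filter] at hx hy hz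
    have h1 := hf2 x hx.1
    have h2 := hf2 y hy.1
    have h3 := hf2 z hz.1
    rw [hx.2] at h1
    rw [hy.2] at h2
    rw [hz.2] at h3
    exact three_pts h1 h2 h3 (hsep x hx.1 y hy.1 hxy) (hsep x hx.1 z hz.1 hxz) (hsep y hy.1 z hz.1 hyz)
  have c1 : P.card ≤ 2 * R.card := by
    have := Finset.card_le_mul_card_image_of_maps_to (s := P) (t := R) (f := f) hf1 2 hfib
    exact this
  have c2 : R.card ≤ L.card := by
    have hi : Set.InjOn (fun σ : ℂ => 1 - starRingEnd ℂ σ) (R : Set ℂ) := by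
      intro x _ y _ h
      have h1 : starRingEnd ℂ x = starRingEnd ℂ y := by
        have h' : (1 : ℂ) - starRingEnd ℂ x = 1 - starRingEnd ℂ y := h
        linear_combination -h'
      exact (starRingEnd ℂ).injective h1
    rw [← Finset.card_image_of_injOn hi]
    refine card_le_card ?_
    intro σ hσ
    obtain ⟨ρ, hρ, rfl⟩ := mem_image.1 hσ
    rw [hR, mem_filter] at hρ
    rw [hL, mem_filter]
    refine ⟨hmir ρ hρ.1, ?_⟩
    simp only [Complex.sub_re, Complex.one_re, Complex.conj_re]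
    linarith [hρ.2]
  have c3 : R.card + L.card ≤ (Deep T h).card := by
    have d1 : Disjoint R L := by
      rw [disjoint_left]
      intro ρ h1 h2
      rw [hR, mem_filter] at h1
      rw [hL, mem_filter] at h2
      linarith [h1.2, h2.2]
    rw [← card_union_of_disjoint d1]
    refine card_le_card (union_subset ?_ ?_)
    · rw [hR]; exact filter_subset _ _
    · rw [hL]; exact filter_subset _ _
  have c4 : I.card ≤ J.card + (Ed T).card + P.card := by
    have h1 : I ⊆ (J ∪ Ed T) ∪ P := by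
      intro ρ hρ
      by_cases h2 : ρ ∈ J
      · exact mem_union_left _ (mem_union_left _ h2)
      · by_cases h3 : ρ ∈ Ed T
        · exact mem_union_left _ (mem_union_right _ h3)
        · refine mem_union_right _ ?_
          rw [hP, Finset.mem_sdiff, Finset.mem_sdiff]
          exact ⟨⟨hρ, h2⟩, h3⟩
    have h2 := card_le_card h1
    have h3 := card_union_le (J ∪ Ed T) P
    have h4 := card_union_le J (Ed T)
    omega
  have c5 : I.card ≤ J.card + (Ed T).card + (Deep T h).card := by omega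
  have c6 : (I.card : ℝ) ≤ (J.card : ℝ) + (Ed T).card + (Deep T h).card := by exact_mod_cast c5
  linarith

end Pool.Agent.Helper49.RV
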